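import Pool.Agent.H6.Veech.Big2
import Pool.Agent.H6.Veech.Dense

/-!
# Translation structures with large Veech group and a part with non-dense periods

A translation structure on a connected surface `M` whose Veech group contains `(1 a; 0 1)` and
`(1 0; b 1)`, `a, b ≥ 1`, and a nonempty open subset `N`, invariant under the two affine
homeomorphisms.  If `N` is connected and its periods are not dense in `ℝ²`, then after rescaling
they lie in `ℤ²`.  If the periods of `N` lie in `ℤ²` (after rescaling) and `N` has finite area,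
then `M` is, up to finitely many points, a finite covering of the torus minus finitely many points
(and `N` is `M` minus finitely many points).
-/

open Set Filter Topology MeasureTheory

namespace Pool.Agent.Results.MP_27aadb_gt.DiscretePeriods

/-- The torus `ℝ² / ℤ²`. -/
abbrev Torus : Type := UnitAddCircle × UnitAddCircle

/-- The projection `ℝ² → ℝ² / ℤ²`. -/
def proj (z : ℝ × ℝ) : Torus := ((z.1 : UnitAddCircle), (z.2 : UnitAddCircle))

/-- The linear map of `ℝ²` with matrix `L`. -/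
def lin (L : Matrix (Fin 2) (Fin 2) ℝ) (z : ℝ × ℝ) : ℝ × ℝ :=
  (L 0 0 * z.1 + L 0 1 * z.2, L 1 0 * z.1 + L 1 1 * z.2)

/-- `𝒜` is a translation atlas on `M`: charts to `ℝ²` which cover `M` and whose changes are locally
translations. -/
def IsTranslationAtlas {M : Type*} [TopologicalSpace M]
    (𝒜 : Set (OpenPartialHomeomorph M (ℝ × ℝ))) : Prop :=
  (∀ x, ∃ φ ∈ 𝒜, x ∈ φ.source) ∧
    ∀ φ ∈ 𝒜, ∀ ψ ∈ 𝒜, ∀ x, x ∈ φ.source → x ∈ ψ.source → ∃ c, ∀ᶠ y in 𝓝 x, ψ y = φ y + c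

/-- The homeomorphism `f` is affine with derivative `L` in the charts of `𝒜`. -/
def IsAffine {M : Type*} [TopologicalSpace M] (𝒜 : Set (OpenPartialHomeomorph M (ℝ × ℝ)))
    (L : Matrix (Fin 2) (Fin 2) ℝ) (f : M ≃ₜ M) : Prop :=
  ∀ φ ∈ 𝒜, ∀ ψ ∈ 𝒜, ∀ x, x ∈ φ.source → f x ∈ ψ.source →
    ∃ c, ∀ᶠ y in 𝓝 x, ψ (f y) = lin L (φ y) + c

/-- The periods of `N` lie in the subgroup `H` of `ℝ²`: there is a map `u` which is near each
point of `N` a chart modulo `H`, up to a constant. -/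
def HasPeriodsIn {M : Type*} [TopologicalSpace M] (𝒜 : Set (OpenPartialHomeomorph M (ℝ × ℝ)))
    (N : Set M) (H : AddSubgroup (ℝ × ℝ)) : Prop :=
  ∃ u : M → ℝ × ℝ, ∀ x ∈ N, ∀ φ ∈ 𝒜, x ∈ φ.source → ∃ c, ∀ᶠ y in 𝓝 x, u y - φ y - c ∈ H

/-- `D` develops `N` to the torus in the scale `r`: near each point of `N` it is `r` times a chart
modulo `ℤ²`, up to a constant.  (Such a `D` exists if and only if all periods of `N` lie in
`r⁻¹ ℤ²`.) -/
def IsDeveloping {M : Type*} [TopologicalSpace M] (𝒜 : Set (OpenPartialHomeomorph M (ℝ × ℝ)))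
    (r : ℝ) (N : Set M) (D : M → Torus) : Prop :=
  ∀ x ∈ N, ∀ φ ∈ 𝒜, x ∈ φ.source → ∃ c, ∀ᶠ y in 𝓝 x, D y = proj (r • φ y) + c

/-- The area of `N` in the scale of `D`: the integral over the torus of the number of preimages
in `N`. -/
noncomputable def area {M : Type*} (N : Set M) (D : M → Torus) : ENNReal :=
  ∫⁻ y : Torus, ((N ∩ D ⁻¹' {y}).encard : ENNReal)

section conversion

open Pool.Agent.H6.Veech

variable {M : Type*} [TopologicalSpace M]

lemma proj_add (z w : ℝ × ℝ) : proj (z + w) = proj z + proj w := rfl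

/-- a local inverse of the projection -/
lemma exists_local {r : ℝ} (hr : r ≠ 0) (z : ℝ × ℝ) :
    ∃ e : OpenPartialHomeomorph (ℝ × ℝ) Torus, z ∈ e.source ∧ ∀ w, e w = proj (r • w) := by
  refine ⟨(Homeomorph.smulOfNeZero r hr).toOpenPartialHomeomorph.trans
    ((AddCircle.openPartialHomeomorphCoe (1 : ℝ) ((r • z).1 - 1 / 2)).prod
    (AddCircle.openPartialHomeomorphCoe (1 : ℝ) ((r • z).2 - 1 / 2))), ?_, fun w => rfl⟩
  simp only [OpenPartialHomeomorph.trans_source, Homeomorph.toOpenPartialHomeomorph_source,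
    univ_inter, mem_preimage, OpenPartialHomeomorph.prod_source, mem_prod,
    AddCircle.openPartialHomeomorphCoe_source, mem_Ioo, Homeomorph.toOpenPartialHomeomorph_apply,
    Homeomorph.smulOfNeZero_apply]
  constructor <;> constructor <;> linarith

/-- the charts read modulo `ℤ²` in the scale `r` -/
def torusCharts (r : ℝ) (𝒜 : Set (OpenPartialHomeomorph M (ℝ × ℝ))) :
    Set (OpenPartialHomeomorph M T) :=
  {χ | ∃ φ ∈ 𝒜, ∃ e : OpenPartialHomeomorph (ℝ × ℝ) Torus, (∀ w, e w = proj (r • w)) ∧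
    χ = φ.trans e}

lemma torusCharts_cov {r : ℝ} (hr : r ≠ 0) {𝒜 : Set (OpenPartialHomeomorph M (ℝ × ℝ))}
    (h : IsTranslationAtlas 𝒜) (x : M) : ∃ χ ∈ torusCharts r 𝒜, x ∈ χ.source := by
  obtain ⟨φ, hφ, hx⟩ := h.1 x
  obtain ⟨e, hz, he⟩ := exists_local hr (φ x)
  exact ⟨φ.trans e, ⟨φ, hφ, e, he, rfl⟩, by simp [hx, hz]⟩

lemma torusCharts_tr {r : ℝ} {𝒜 : Set (OpenPartialHomeomorph M (ℝ × ℝ))}
    (h : IsTranslationAtlas 𝒜) : ∀ χ ∈ torusCharts r 𝒜, ∀ χ' ∈ torusCharts r 𝒜, ∀ x ∈ χ.source,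
      x ∈ χ'.source → ∃ c, ∀ᶠ y in 𝓝 x, χ' y = χ y + c := by
  rintro χ ⟨φ, hφ, e, he, rfl⟩ χ' ⟨ψ, hψ, e', he', rfl⟩ x hx hx'
  obtain ⟨c, hc⟩ := h.2 φ hφ ψ hψ x (by simp at hx; exact hx.1) (by simp at hx'; exact hx'.1)
  refine ⟨proj (r • c), ?_⟩
  filter_upwards [hc] with y hy
  change e' (ψ y) = e (φ y) + proj (r • c)
  rw [he, he', hy, smul_add, proj_add]

lemma developing_iff {r : ℝ} (hr : r ≠ 0) {𝒜 : Set (OpenPartialHomeomorph M (ℝ × ℝ))}
    {N : Set M} {D : M → Torus} :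
    IsDeveloping 𝒜 r N D ↔ CompatOn N (torusCharts r 𝒜) D := by
  constructor
  · rintro h x hx χ ⟨φ, hφ, e, he, rfl⟩ hxχ
    obtain ⟨c, hc⟩ := h x hx φ hφ (by simp at hxχ; exact hxχ.1)
    refine ⟨c, ?_⟩
    filter_upwards [hc] with y hy
    change D y = e (φ y) + c
    rw [he, hy]
  · intro h x hx φ hφ hxφ
    obtain ⟨e, hz, he⟩ := exists_local hr (φ x)
    obtain ⟨c, hc⟩ := h x hx (φ.trans e) ⟨φ, hφ, e, he, rfl⟩ (by simp [hxφ, hz])
    refine ⟨c, ?_⟩
    filter_upwards [hc] with y hy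
    have h1 : D y = e (φ y) + c := hy
    rw [h1, he]

lemma affine_conv {r : ℝ} {𝒜 : Set (OpenPartialHomeomorph M (ℝ × ℝ))}
    {L : Matrix (Fin 2) (Fin 2) ℝ}
    {u : T ≃+ T} (hu : ∀ z, proj (lin L z) = u (proj z)) {f : M ≃ₜ M} (hf : IsAffine 𝒜 L f) :
    ∀ χ ∈ torusCharts r 𝒜, ∀ χ' ∈ torusCharts r 𝒜, ∀ x ∈ χ.source, f x ∈ χ'.source →
      ∃ c, ∀ᶠ y in 𝓝 x, χ' (f y) = u (χ y) + c := by
  rintro χ ⟨φ, hφ, e, he, rfl⟩ χ' ⟨ψ, hψ, e', he', rfl⟩ x hx hx'
  obtain ⟨c, hc⟩ := hf φ hφ ψ hψ x (by simp at hx; exact hx.1) (by simp at hx'; exact hx'.1)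
  refine ⟨proj (r • c), ?_⟩
  filter_upwards [hc] with y hy
  change e' (ψ (f y)) = u (e (φ y)) + proj (r • c)
  have hl : r • lin L (φ y) = lin L (r • φ y) := by
    ext <;> simp [lin] <;> ring
  rw [he, he', hy, smul_add, proj_add, hl, hu]

/-- a surface with an atlas is locally connected -/
lemma locConn {𝒜 : Set (OpenPartialHomeomorph M (ℝ × ℝ))} (h : IsTranslationAtlas 𝒜) :
    LocallyConnectedSpace M := by
  choose c hc hx using h.1
  let _ : ChartedSpace (ℝ × ℝ) M :=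
    { atlas := 𝒜
      chartAt := c
      mem_chart_source := hx
      chart_mem_atlas := hc }
  exact ChartedSpace.locallyConnectedSpace (ℝ × ℝ) M

/-- from periods in `r⁻¹ ℤ²` to a developing map -/
lemma developing_of_periods {r : ℝ} (hr : 0 < r) {𝒜 : Set (OpenPartialHomeomorph M (ℝ × ℝ))}
    {N : Set M} (h : Dense.Per 𝒜 N (Dense.box r r)) : ∃ D, IsDeveloping 𝒜 r⁻¹ N D := by
  obtain ⟨u, hu⟩ := h
  refine ⟨fun x => proj (r⁻¹ • u x), fun x hx φ hφ hxφ => ?_⟩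
  obtain ⟨c, hc⟩ := hu x hx φ hφ hxφ
  refine ⟨proj (r⁻¹ • c), ?_⟩
  filter_upwards [hc] with y hy
  obtain ⟨m, n, hm, hn⟩ := Dense.mem_box.1 hy
  have e : r⁻¹ • u y = r⁻¹ • φ y + r⁻¹ • c + ((m : ℝ), (n : ℝ)) := by
    have h1 : (u y).1 = (φ y).1 + c.1 + m * r := by
      have : (u y - φ y - c).1 = (u y).1 - (φ y).1 - c.1 := rfl
      rw [this] at hm
      linarith
    have h2 : (u y).2 = (φ y).2 + c.2 + n * r := by
      have : (u y - φ y - c).2 = (u y).2 - (φ y).2 - c.2 := rfl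
      rw [this] at hn
      linarith
    ext
    · simp only [Prod.smul_fst, Prod.fst_add, smul_eq_mul]
      rw [h1]
      field_simp
    · simp only [Prod.smul_snd, Prod.snd_add, smul_eq_mul]
      rw [h2]
      field_simp
  rw [e, proj_add, proj_add]
  have h0 : proj ((m : ℝ), (n : ℝ)) = 0 := by
    unfold proj
    have a1 : (((m : ℝ) : ℝ) : UnitAddCircle) = 0 := by
      rw [AddCircle.coe_eq_zero_iff]
      exact ⟨m, by simp⟩
    have a2 : (((n : ℝ) : ℝ) : UnitAddCircle) = 0 := by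
      rw [AddCircle.coe_eq_zero_iff]
      exact ⟨n, by simp⟩
    simp only [a1, a2]
    rfl
  rw [h0, add_zero]

end conversion

/-- **Main theorem.** -/
theorem result {M : Type*} [TopologicalSpace M] [T2Space M] [ConnectedSpace M]
    (𝒜 : Set (OpenPartialHomeomorph M (ℝ × ℝ))) (h𝒜 : IsTranslationAtlas 𝒜)
    (a b : ℕ) (ha : 1 ≤ a) (hb : 1 ≤ b) (f g : M ≃ₜ M)
    (hf : IsAffine 𝒜 !![1, (a : ℝ); 0, 1] f) (hg : IsAffine 𝒜 !![1, 0; (b : ℝ), 1] g)
    (N : Set M) (hN : IsOpen N) (hNe : N.Nonempty) (hfN : f '' N = N) (hgN : g '' N = N) :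
    (∀ H : AddSubgroup (ℝ × ℝ), IsClosed (H : Set (ℝ × ℝ)) → H ≠ ⊤ → IsConnected N →
      HasPeriodsIn 𝒜 N H → ∃ r : ℝ, 0 < r ∧ ∃ D : M → Torus, IsDeveloping 𝒜 r N D) ∧
    ∀ (r : ℝ) (D : M → Torus), 0 < r → IsDeveloping 𝒜 r N D →
    (area N D < ⊤ → ∃ D' : M → Torus, IsDeveloping 𝒜 r univ D' ∧ (∀ x ∈ N, D' x = D x) ∧
      (Nᶜ).Finite ∧ IsLocalHomeomorph D' ∧ ∃ (w : Torus) (d m : ℕ) (F : Set Torus),
        1 ≤ d ∧ 1 ≤ m ∧ F.Finite ∧ (∀ y ∈ F, m • (y - w) = 0) ∧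
        (∀ y, (D' ⁻¹' {y}).encard ≤ d) ∧ (∀ y ∉ F, (D' ⁻¹' {y}).encard = d) ∧
        (D' ⁻¹' F).Finite ∧ IsCoveringMapOn D' Fᶜ ∧ area univ D' = d ∧ area N D = d) ∧
    (area N D = ⊤ → IsConnected N → ∃ w : Torus, ∀ y : Torus,
      (∀ m : ℕ, 1 ≤ m → m • (y - w) ≠ 0) → (N ∩ D ⁻¹' {y}).Infinite) := by
  constructor
  · intro H hH hne hNc hP
    obtain ⟨r, hr, h⟩ := Pool.Agent.H6.Veech.Dense.reduce h𝒜.1 hN hNc.isPreconnected ha hb f g
      (fun x hx => (Pool.Agent.H6.Veech.mem_iff' hfN x).2 hx)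
      (fun x hx => (Pool.Agent.H6.Veech.mem_iff' hgN x).2 hx)
      (fun φ hφ ψ hψ x h1 h2 => by
        obtain ⟨c, hc⟩ := hf φ hφ ψ hψ x h1 h2
        refine ⟨c, hc.mono fun y hy => ?_⟩
        rw [hy]
        congr 1
        ext <;> simp [lin, Pool.Agent.H6.Veech.Dense.shearU])
      (fun φ hφ ψ hψ x h1 h2 => by
        obtain ⟨c, hc⟩ := hg φ hφ ψ hψ x h1 h2
        refine ⟨c, hc.mono fun y hy => ?_⟩
        rw [hy]
        congr 1
        ext <;> simp [lin, Pool.Agent.H6.Veech.Dense.shearL, add_comm])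
      hH hne hP
    exact ⟨r⁻¹, inv_pos.2 hr, developing_of_periods hr h⟩
  intro r D hr hD
  have hr0 : r ≠ 0 := hr.ne'
  have hu : ∀ z, proj (lin !![1, (a : ℝ); 0, 1] z) = Pool.Agent.H6.Veech.uMap a (proj z) := by
    intro z
    change proj _ = ((z.1 : UnitAddCircle) + a • (z.2 : UnitAddCircle), (z.2 : UnitAddCircle))
    rw [← AddCircle.coe_nsmul, ← AddCircle.coe_add]
    simp [proj, lin]
  have hl : ∀ z, proj (lin !![1, 0; (b : ℝ), 1] z) = Pool.Agent.H6.Veech.lMap b (proj z) := by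
    intro z
    change proj _ = ((z.1 : UnitAddCircle), (z.2 : UnitAddCircle) + b • (z.1 : UnitAddCircle))
    rw [← AddCircle.coe_nsmul, ← AddCircle.coe_add]
    simp [proj, lin, add_comm]
  have h := fun hNc : IsConnected N =>
    Pool.Agent.H6.Veech.big hN hNc (torusCharts_cov hr0 h𝒜) (torusCharts_tr h𝒜)
      ((developing_iff hr0).1 hD) ha hb f g (Pool.Agent.H6.Veech.mem_iff' hfN)
      (Pool.Agent.H6.Veech.mem_iff' hgN) (affine_conv hu hf) (affine_conv hl hg)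
  have ha0 : area N D = ∫⁻ y : Torus, (((fun x : N => D x) ⁻¹' {y}).encard : ENNReal) :=
    Pool.Agent.H6.Veech.ar_eq N D
  constructor
  · intro hfin
    have := locConn h𝒜
    have hNc : IsConnected N := Pool.Agent.H6.Veech.connected_of_finite_area hN hNe
      (torusCharts_cov hr0 h𝒜) (torusCharts_tr h𝒜) ((developing_iff hr0).1 hD) ha hb f g hfN hgN
      (affine_conv hu hf) (affine_conv hl hg) hfin
    rw [ha0] at hfin
    obtain ⟨D', h1, h2, h3, h4, w, d, F, h5, h6, ⟨m, hm, h7⟩, h8, h9, h10, h11, h12, h13⟩ :=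
      (h hNc).1 hfin
    refine ⟨D', (developing_iff hr0).2 h2, h1, h4, h3, w, d, m, F, h5, hm, h6, h7, h8, h9, h10,
      h11, ?_, ?_⟩
    · unfold area
      simp only [univ_inter]
      exact h12
    · rw [ha0]; exact h13
  · intro hinf hNc
    rw [ha0] at hinf
    obtain ⟨w, hw⟩ := (h hNc).2 hinf
    refine ⟨w, fun y hy => ?_⟩
    have h1 := hw y hy
    rw [← encard_eq_top_iff] at h1 ⊢
    rw [Pool.Agent.H6.Veech.encard_sub', h1]

end Pool.Agent.Results.MP_27aadb_gt.DiscretePeriods
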